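import Pool.Agent.Helper67.NX2.Defs
import Pool.Agent.Helper5.NX.Basic
import Pool.Agent.Helper88.NX.BoxNorm

/-!
# Project NX2, module A1c: cubes and box norms along progressions, fibres
-/

set_option autoImplicit false
set_option linter.unusedVariables false

open Finset
open scoped BigOperators ComplexConjugate

namespace Pool.Agent.Helper67.NX2

open Pool.Agent.Helper57.NX

noncomputable section

section AqBasic
variable {N : ℕ} [NeZero N]

/-! ### private basics -/

omit [NeZero N] in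
private theorem fb_cubeq_eq (st k : ℕ) (f : ZMod N → ℂ) (a b : Fin k → ℕ) :
    cubeq st f a b = cube f (fun i => st * a i) (fun i => st * b i) := by
  funext x
  unfold cubeq cube
  refine prod_congr rfl fun ω _ => ?_
  have h : tot (sel ω (fun i => st * a i) (fun i => st * b i)) = st * tot (sel ω a b) := by
    unfold tot
    rw [mul_sum]
    refine sum_congr rfl fun i _ => ?_
    unfold sel
    split_ifs <;> rfl
  rw [h]

/-- cubes of admissible functions are admissible -/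
theorem Adm.cubq {B X : ℝ} (hX : 0 < X) {f : ZMod N → ℂ} (h : Adm B X f) (st k : ℕ)
    (a b : Fin k → ℕ) : Adm (2 ^ k * B) X (cubeq st f a b) := by
  rw [fb_cubeq_eq]
  exact Adm.cub hX h k _ _

/-! ### fibres -/

omit [NeZero N] in
private theorem fb_cast {p Q q : ℕ} (hN : N = Q * p) (e u v : ℕ) (h : u ≡ v [MOD p]) :
    ((Q * (q * u) + e : ℕ) : ZMod N) = ((Q * (q * v) + e : ℕ) : ZMod N) := by
  rw [ZMod.natCast_eq_natCast_iff, hN]
  exact Nat.ModEq.add_right e ((h.mul_left q).mul_left' Q)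

omit [NeZero N] in
theorem fib_add {p : ℕ} [NeZero p] {Q q : ℕ} (hN : N = Q * p) (f : ZMod N → ℂ) (e : ℕ) (z : ZMod p)
    (a : ℕ) : fib Q q f e (z + (a : ZMod p)) =
      f (((Q * (q * z.val) + e : ℕ) : ZMod N) + ((Q * q * a : ℕ) : ZMod N)) := by
  unfold fib
  have h : (z + (a : ZMod p)).val ≡ z.val + a [MOD p] := by
    rw [← ZMod.natCast_eq_natCast_iff, Nat.cast_add, ZMod.natCast_zmod_val, ZMod.natCast_zmod_val]
  rw [fb_cast hN e _ _ h, ← Nat.cast_add]
  congr 2
  ring

omit [NeZero N] in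
theorem fib_fib {p : ℕ} [NeZero p] {Q q q' : ℕ} (hN : N = Q * p) (f : ZMod N → ℂ) (e : ℕ)
    (z : ZMod p) : fib Q q f e ((q' : ZMod p) * z) = fib Q (q * q') f e z := by
  unfold fib
  have h : ((q' : ZMod p) * z).val ≡ q' * z.val [MOD p] := by
    rw [← ZMod.natCast_eq_natCast_iff, Nat.cast_mul, ZMod.natCast_zmod_val, ZMod.natCast_zmod_val]
  rw [fb_cast hN e _ _ h, mul_assoc q q' z.val]

/-- the average over the fibres is the average over `ZMod N` -/
theorem expect_fib {p : ℕ} [NeZero p] (hp : p.Prime) {Q q : ℕ} (hN : N = Q * p) (hq : 1 ≤ q)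
    (hqp : q < p) {M : Type} [AddCommMonoid M] [Module ℚ≥0 M] (g : ZMod N → M) :
    𝔼 e : Fin Q, 𝔼 z : ZMod p, g ((Q * (q * z.val) + e : ℕ) : ZMod N) = 𝔼 x, g x := by
  have hQ : 0 < Q := by
    rcases Nat.eq_zero_or_pos Q with h | h
    · exact absurd (by rw [hN, h, zero_mul]) (NeZero.ne N)
    · exact h
  rw [← expect_product' (univ : Finset (Fin Q)) (univ : Finset (ZMod p))
    (fun e z => g ((Q * (q * z.val) + e : ℕ) : ZMod N)), univ_product_univ]
  refine Fintype.expect_bijective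
    (fun x : Fin Q × ZMod p => ((Q * (q * x.2.val) + x.1 : ℕ) : ZMod N)) ?_ _ _ fun _ => rfl
  rw [Fintype.bijective_iff_injective_and_card]
  constructor
  · rintro ⟨e, z⟩ ⟨e', z'⟩ h
    simp only at h
    rw [ZMod.natCast_eq_natCast_iff, hN] at h
    have h1 : (e : ℕ) = e' := by
      have h2 := h.of_mul_right p
      have h3 : (Q * (q * z.val) + e) % Q = (Q * (q * z'.val) + e') % Q := h2
      rw [Nat.mul_add_mod, Nat.mul_add_mod, Nat.mod_eq_of_lt e.2, Nat.mod_eq_of_lt e'.2] at h3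
      exact h3
    rw [h1] at h
    have h4 := Nat.ModEq.add_right_cancel' _ h
    have h5 : q * z.val ≡ q * z'.val [MOD p] := Nat.ModEq.mul_left_cancel' hQ.ne' h4
    have h6 : z.val ≡ z'.val [MOD p] := by
      refine Nat.ModEq.cancel_left_of_coprime ?_ h5
      exact (Nat.Prime.coprime_iff_not_dvd hp).2 fun h =>
        absurd (Nat.le_of_dvd (by omega) h) (by omega)
    have h7 : z = z' := by
      rw [← ZMod.natCast_eq_natCast_iff, ZMod.natCast_zmod_val, ZMod.natCast_zmod_val] at h6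
      exact h6
    rw [h7, Fin.ext h1]
  · rw [Fintype.card_prod, Fintype.card_fin, ZMod.card, ZMod.card, hN]

omit [NeZero N] in
theorem apb_fib {p : ℕ} [NeZero p] (hp : p.Prime) {Q q X : ℕ} (hN : N = Q * p) (hq : 1 ≤ q)
    (hqp : q < p) (r : ZMod p) (cc : ℕ → ℕ → ℂ) (φ : ℕ → ℕ → ℝ) (e : ℕ) (he : e < Q) (z : ZMod p) :
    apb (N := N) Q q X r cc φ ((Q * (q * z.val) + e : ℕ) : ZMod N) =
      bphase X r (cc e) (φ e) z := by
  have : Fact p.Prime := ⟨hp⟩
  have hQ : 0 < Q := by omega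
  have h1 : ((Q * (q * z.val) + e : ℕ) : ZMod N).val = (Q * (q * z.val) + e) % (Q * p) := by
    rw [ZMod.val_natCast, hN]
  have h2 : (Q * (q * z.val) + e) % (Q * p) % Q = e := by
    rw [Nat.mod_mul_right_mod, Nat.mul_add_mod, Nat.mod_eq_of_lt he]
  have h3 : (Q * (q * z.val) + e) % (Q * p) / Q = (q * z.val) % p := by
    rw [Nat.mod_mul_right_div_self, Nat.mul_add_div hQ, Nat.div_eq_of_lt he, add_zero]
  have h4 : (((q * z.val) % p : ℕ) : ZMod p) * (q : ZMod p)⁻¹ = z := by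
    rw [ZMod.natCast_mod, Nat.cast_mul, ZMod.natCast_zmod_val]
    have h5 : (q : ZMod p) ≠ 0 := by
      intro h
      rw [ZMod.natCast_eq_zero_iff] at h
      exact absurd (Nat.le_of_dvd (by omega) h) (by omega)
    field_simp
  unfold apb
  rw [h1, h2, h3, h4]

theorem Boxq_fib {p : ℕ} [NeZero p] (hp : p.Prime) {Q q : ℕ} [NeZero Q] (hN : N = Q * p)
    (hq : 1 ≤ q) (hqp : q < p) (k X : ℕ) (f : ZMod N → ℂ) :
    Boxq (Q * q) k X f = 𝔼 e : Fin Q, Box k X (fib (p := p) Q q f e) := by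
  unfold Boxq Box
  rw [← Complex.re_expect]
  congr 1
  symm
  refine (expect_comm _ _ _).trans ?_
  refine expect_congr rfl fun a _ => ?_
  refine (expect_comm _ _ _).trans ?_
  refine expect_congr rfl fun b _ => ?_
  rw [← expect_fib hp hN hq hqp (cubeq (Q * q) f a b)]
  refine expect_congr rfl fun e _ => expect_congr rfl fun z _ => ?_
  unfold cubeq cube
  refine prod_congr rfl fun ω _ => ?_
  rw [fib_add hN]

theorem nrm_fib {p : ℕ} [NeZero p] (hp : p.Prime) {Q q : ℕ} [NeZero Q] (hN : N = Q * p)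
    (hq : 1 ≤ q) (hqp : q < p) (L : ℕ) (f : ZMod N → ℂ) :
    nrm (Aq (Q * q) L f) = 𝔼 e : Fin Q, nrm (A L (fib (p := p) Q q f e)) := by
  unfold nrm
  rw [← expect_fib hp hN hq hqp (fun x => ‖Aq (Q * q) L f x‖)]
  refine expect_congr rfl fun e _ => expect_congr rfl fun z _ => ?_
  unfold Aq A
  congr 1
  refine expect_congr rfl fun a _ => ?_
  rw [fib_add hN]

/-! ### copies of private lemmas of `Helper88.NX.BoxNorm` -/

private theorem fb_expect_shift {M : Type} [AddCommMonoid M] [Module ℚ≥0 M] (f : ZMod N → M)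
    (t : ZMod N) : 𝔼 x, f (x + t) = 𝔼 x, f x :=
  Fintype.expect_equiv (Equiv.addRight t) _ _ fun _ => rfl

private theorem fb_norm_expect_le {ι : Type} (s : Finset ι) (f : ι → ℂ) :
    ‖𝔼 i ∈ s, f i‖ ≤ 𝔼 i ∈ s, ‖f i‖ := RCLike.norm_expect_le (K := ℂ)

private theorem fb_conj_expect {ι : Type} (s : Finset ι) (f : ι → ℂ) :
    conj (𝔼 i ∈ s, f i) = 𝔼 i ∈ s, conj (f i) :=
  map_expect (starRingEnd ℂ) f s

private theorem fb_norm_sq_expect {ι : Type} (s : Finset ι) (f : ι → ℂ) :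
    ((‖𝔼 i ∈ s, f i‖ ^ 2 : ℝ) : ℂ) = 𝔼 i ∈ s, 𝔼 j ∈ s, f i * conj (f j) := by
  rw [← expect_mul_expect, ← fb_conj_expect, Complex.mul_conj, Complex.normSq_eq_norm_sq]

private theorem fb_sq_expect_le {ι : Type} (s : Finset ι) (f : ι → ℝ) :
    (𝔼 i ∈ s, f i) ^ 2 ≤ 𝔼 i ∈ s, f i ^ 2 := by
  rcases s.eq_empty_or_nonempty with rfl | hs
  · simp
  · have := expect_mul_sq_le_sq_mul_sq s f (fun _ => 1)
    simpa [expect_const hs] using this

private theorem fb_norm_sq_expect_le {ι : Type} (s : Finset ι) (f : ι → ℂ) :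
    ‖𝔼 i ∈ s, f i‖ ^ 2 ≤ 𝔼 i ∈ s, ‖f i‖ ^ 2 := by
  refine le_trans ?_ (fb_sq_expect_le s _)
  exact pow_le_pow_left₀ (norm_nonneg _) (fb_norm_expect_le s f) 2

private theorem fb_cjj_mul {k : ℕ} (ω : Fin k → Bool) (z w : ℂ) :
    cjj ω (z * w) = cjj ω z * cjj ω w := by
  unfold cjj
  split_ifs <;> simp

private theorem fb_cjj_conj {k : ℕ} (ω : Fin k → Bool) (z : ℂ) :
    cjj ω (conj z) = conj (cjj ω z) := by
  unfold cjj
  split_ifs <;> simp

private theorem fb_cjj_cons {k : ℕ} (b : Bool) (ω : Fin k → Bool) (z : ℂ) :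
    cjj (Fin.cons b ω : Fin (k + 1) → Bool) z = if b then conj (cjj ω z) else cjj ω z := by
  have h : #(univ.filter fun i : Fin (k + 1) => (Fin.cons b ω : Fin (k + 1) → Bool) i = true)
      = (if b then 1 else 0) + #(univ.filter fun i => ω i = true) := by
    rw [Fin.card_filter_univ_succ]
    cases b <;> simp [add_comm]
  unfold cjj
  rw [h]
  cases b
  · simp
  · simp only [if_true]
    by_cases he : Even #(univ.filter fun i => ω i = true)
    · have h1 : ¬ Even (1 + #(univ.filter fun i => ω i = true)) := by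
        rw [add_comm, Nat.even_add_one]
        exact not_not.mpr he
      rw [if_neg h1, if_pos he]
    · have h1 : Even (1 + #(univ.filter fun i => ω i = true)) := by
        rw [add_comm, Nat.even_add_one]
        exact he
      rw [if_pos h1, if_neg he]
      simp

private theorem fb_sel_cons {k : ℕ} {α : Type} (β : Bool) (ω : Fin k → Bool) (a0 b0 : α)
    (a b : Fin k → α) :
    sel (Fin.cons β ω : Fin (k + 1) → Bool) (Fin.cons a0 a) (Fin.cons b0 b)
      = Fin.cons (if β then b0 else a0) (sel ω a b) := by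
  funext i
  refine Fin.cases ?_ (fun i => ?_) i
  · simp [sel]
  · simp [sel]

private theorem fb_tot_cons {k : ℕ} (z : ℕ) (a : Fin k → ℕ) :
    tot (Fin.cons z a : Fin (k + 1) → ℕ) = z + tot a := by
  simp [tot, Fin.sum_univ_succ]

omit [NeZero N] in
private theorem fb_cube_cons (k : ℕ) (f : ZMod N → ℂ) (z z' : ℕ) (a b : Fin k → ℕ) (x : ZMod N) :
    cube f (Fin.cons z a) (Fin.cons z' b) x
      = cube (fun x => f (x + (z : ZMod N)) * conj (f (x + (z' : ZMod N)))) a b x := by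
  unfold cube
  rw [← Fintype.prod_equiv (Fin.consEquiv (fun _ : Fin (k + 1) => Bool))
    (fun p => cjj (Fin.cons p.1 p.2 : Fin (k + 1) → Bool)
      (f (x + (tot (sel (Fin.cons p.1 p.2 : Fin (k + 1) → Bool) (Fin.cons z a)
        (Fin.cons z' b)) : ZMod N)))) _ (fun p => rfl)]
  rw [Fintype.prod_prod_type, Fintype.prod_bool, ← prod_mul_distrib]
  refine prod_congr rfl fun ω _ => ?_
  rw [fb_cjj_cons, fb_cjj_cons, fb_sel_cons, fb_sel_cons, fb_tot_cons, fb_tot_cons, fb_cjj_mul,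
    fb_cjj_conj, mul_comm]
  simp only [if_true, Bool.false_eq_true, if_false, Nat.cast_add]
  rw [add_assoc, add_assoc, add_comm (tot (sel ω a b) : ZMod N) (z : ZMod N),
    add_comm (tot (sel ω a b) : ZMod N) (z' : ZMod N)]

private theorem fb_expect_boxset_succ {M : Type} [AddCommMonoid M] [Module ℚ≥0 M] (k X : ℕ)
    (F : (Fin (k + 1) → ℕ) → M) :
    𝔼 a ∈ boxset (k + 1) X, F a
      = 𝔼 z ∈ range X, 𝔼 a ∈ boxset k X, F (Fin.cons z a) := by
  rw [← expect_product' (range X) (boxset k X) (fun z a => F (Fin.cons z a))]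
  refine expect_nbij' (fun a => (a 0, Fin.tail a)) (fun p => Fin.cons p.1 p.2) ?_ ?_ ?_ ?_ ?_
  · intro a ha
    simp only [boxset, Fintype.mem_piFinset] at ha
    simp only [boxset, mem_product, Fintype.mem_piFinset]
    exact ⟨ha 0, fun i => ha _⟩
  · intro p hp
    simp only [boxset, mem_product, Fintype.mem_piFinset] at hp
    simp only [boxset, Fintype.mem_piFinset]
    intro i
    refine Fin.cases ?_ (fun i => ?_) i
    · simpa using hp.1
    · simpa using hp.2 i
  · intro a _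
    simp
  · intro p _
    simp
  · intro a _
    simp


omit [NeZero N] in
private theorem fb_cubeq_cons (st k : ℕ) (f : ZMod N → ℂ) (z z' : ℕ) (a b : Fin k → ℕ)
    (x : ZMod N) :
    cubeq st f (Fin.cons z a) (Fin.cons z' b) x
      = cubeq st (fun x => f (x + ((st * z : ℕ) : ZMod N)) *
          conj (f (x + ((st * z' : ℕ) : ZMod N)))) a b x := by
  have h : ∀ (z : ℕ) (a : Fin k → ℕ), (fun i => st * (Fin.cons z a : Fin (k + 1) → ℕ) i) =
      Fin.cons (st * z) (fun i => st * a i) := by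
    intro z a
    funext i
    refine Fin.cases ?_ (fun i => ?_) i
    · simp
    · simp
  rw [fb_cubeq_eq, fb_cubeq_eq, h, h, fb_cube_cons]

private theorem fb_Boxq_eq (st k X : ℕ) (f : ZMod N → ℂ) :
    Boxq st k X f = 𝔼 a ∈ boxset k X, 𝔼 b ∈ boxset k X, (𝔼 x : ZMod N, cubeq st f a b x).re := by
  simp only [Boxq, Complex.re_expect]

private theorem fb_Boxq_succ (st k X : ℕ) (f : ZMod N → ℂ) :
    Boxq st (k + 1) X f = 𝔼 z ∈ range X, 𝔼 z' ∈ range X,
      Boxq st k X (fun x => f (x + ((st * z : ℕ) : ZMod N)) *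
        conj (f (x + ((st * z' : ℕ) : ZMod N)))) := by
  rw [fb_Boxq_eq, fb_expect_boxset_succ]
  refine expect_congr rfl fun z _ => ?_
  have h : ∀ a ∈ boxset k X, 𝔼 b ∈ boxset (k + 1) X,
      (𝔼 x : ZMod N, cubeq st f (Fin.cons z a) b x).re
      = 𝔼 z' ∈ range X, 𝔼 b ∈ boxset k X, (𝔼 x : ZMod N,
        cubeq st (fun x => f (x + ((st * z : ℕ) : ZMod N)) *
          conj (f (x + ((st * z' : ℕ) : ZMod N)))) a b x).re := by
    intro a _
    rw [fb_expect_boxset_succ]
    refine expect_congr rfl fun z' _ => expect_congr rfl fun b _ => ?_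
    simp only [fb_cubeq_cons]
  rw [expect_congr rfl h, expect_comm]
  refine expect_congr rfl fun z' _ => ?_
  rw [fb_Boxq_eq]

/-- averaging one direction with its own length -/
private theorem fb_Boxq_avg (st k X Y : ℕ) (f : ZMod N → ℂ) :
    𝔼 z ∈ range Y, 𝔼 z' ∈ range Y,
      Boxq st k X (fun x => f (x + ((st * z : ℕ) : ZMod N)) *
        conj (f (x + ((st * z' : ℕ) : ZMod N))))
    = 𝔼 a ∈ boxset k X, 𝔼 b ∈ boxset k X, 𝔼 x, ‖Aq st Y (cubeq st f a b) x‖ ^ 2 := by
  simp only [fb_Boxq_eq]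
  have h1 : ∀ z ∈ range Y, 𝔼 z' ∈ range Y, 𝔼 a ∈ boxset k X, 𝔼 b ∈ boxset k X,
      (𝔼 x : ZMod N,
        cubeq st (fun x => f (x + ((st * z : ℕ) : ZMod N)) *
          conj (f (x + ((st * z' : ℕ) : ZMod N)))) a b x).re
      = 𝔼 a ∈ boxset k X, 𝔼 b ∈ boxset k X, 𝔼 z' ∈ range Y, (𝔼 x : ZMod N,
        cubeq st (fun x => f (x + ((st * z : ℕ) : ZMod N)) *
          conj (f (x + ((st * z' : ℕ) : ZMod N)))) a b x).re := by
    intro z _
    rw [expect_comm]
    exact expect_congr rfl fun a _ => expect_comm _ _ _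
  rw [expect_congr rfl h1, expect_comm]
  refine expect_congr rfl fun a _ => ?_
  rw [expect_comm]
  refine expect_congr rfl fun b _ => ?_
  have h2 : ((𝔼 x, ‖Aq st Y (cubeq st f a b) x‖ ^ 2 : ℝ) : ℂ)
      = 𝔼 z ∈ range Y, 𝔼 z' ∈ range Y, 𝔼 x : ZMod N,
        cubeq st (fun x => f (x + ((st * z : ℕ) : ZMod N)) *
          conj (f (x + ((st * z' : ℕ) : ZMod N)))) a b x := by
    rw [Complex.ofReal_expect]
    have h3 : ∀ x ∈ (univ : Finset (ZMod N)), ((‖Aq st Y (cubeq st f a b) x‖ ^ 2 : ℝ) : ℂ)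
        = 𝔼 z ∈ range Y, 𝔼 z' ∈ range Y,
          cubeq st (fun x => f (x + ((st * z : ℕ) : ZMod N)) *
            conj (f (x + ((st * z' : ℕ) : ZMod N)))) a b x := by
      intro x _
      unfold Aq
      rw [fb_norm_sq_expect]
      refine expect_congr rfl fun z _ => expect_congr rfl fun z' _ => ?_
      rw [fb_cubeq_eq, fb_cubeq_eq, cube_mul k (fun x => f (x + ((st * z : ℕ) : ZMod N)))
        (fun x => conj (f (x + ((st * z' : ℕ) : ZMod N)))),
        cube_shift, cube_conj k (fun x => f (x + ((st * z' : ℕ) : ZMod N))), cube_shift]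
    rw [expect_congr rfl h3, expect_comm]
    exact expect_congr rfl fun z _ => expect_comm _ _ _
  have h4 := congrArg Complex.re h2
  simp only [Complex.ofReal_re, Complex.re_expect] at h4
  simp only [Complex.re_expect]
  exact h4.symm

/-- more directions -/
theorem Boxq_succ_ge (st k X : ℕ) (hX : 1 ≤ X) {f : ZMod N → ℂ} (hf : ∀ x, ‖f x‖ ≤ 1) :
    Boxq st k X f ^ 2 ≤ Boxq st (k + 1) X f := by
  have hne : (range X).Nonempty := by simpa using (by omega : X ≠ 0)
  have h1 : ∀ g : ZMod N → ℂ, (𝔼 x, g x) = 𝔼 x, Aq st X g x := by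
    intro g
    unfold Aq
    rw [expect_comm]
    rw [expect_congr rfl fun (a : ℕ) _ => fb_expect_shift g ((st * a : ℕ) : ZMod N),
      expect_const hne]
  rw [fb_Boxq_succ, fb_Boxq_avg, fb_Boxq_eq]
  refine (fb_sq_expect_le _ _).trans ?_
  refine expect_le_expect fun a _ => ?_
  refine (fb_sq_expect_le _ _).trans ?_
  refine expect_le_expect fun b _ => ?_
  rw [h1]
  refine le_trans ?_ (fb_norm_sq_expect_le _ _)
  exact sq_le_sq.mpr (by
    rw [abs_of_nonneg (norm_nonneg _)]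
    exact Complex.abs_re_le_norm _)

end AqBasic

end

end Pool.Agent.Helper67.NX2
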