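import Pool.Agent.Helper82.NX2.GncCore

/-!
# Project NX2, module A17: the generalised von Neumann theorem, non-natural top exponent
-/

set_option autoImplicit false

namespace Pool.Agent.Helper67.NX2

open Pool.Agent.Helper57.NX

/-- NX2-A17: the generalised von Neumann theorem, non-natural top exponent -/
theorem gnc' (m : ℕ) (c : Fin (m + 1) → ℝ) (hc : StrictMono c) (hc0 : ∀ i, 0 < c i)
    (hcn : ¬ IsN (c (Fin.last m))) (εb : ℝ) (hεb : 0 < εb) :
    ∃ g0 : ℝ, 0 < g0 ∧ ∀ s : ℝ, 0 ≤ s → s ≤ c (Fin.last m) - εb → ∀ s' : ℝ, s' ≤ s + g0 →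
      GNCP m c s s' := by
  refine ⟨min (εb / 8) (1 / 16), lt_min (by linarith) (by norm_num), ?_⟩
  intro s hs0 hs s' hs'
  have hmin : 0 < min (εb / 8) (1 / 16) := lt_min (by linarith) (by norm_num)
  have hce := Nat.le_ceil (c (Fin.last m))
  refine Pool.Agent.Helper82.NX2.gnc_core (fun c γ hγ R s => round c γ hγ R s) sweep m c hc hc0
    (⌈c (Fin.last m)⌉₊ + 1) (by omega) (fun i _ h => hcn ⟨i, by linarith⟩) εb hεb s hs0 hs ?_ s' hs'
  push_cast
  linarith

end Pool.Agent.Helper67.NX2
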