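import Pool.Agent.Helper82.NX2.GncCore

/-!
# Project NX2, module A18: the generalised von Neumann theorem, natural top exponent
-/

set_option autoImplicit false

namespace Pool.Agent.Helper67.NX2

open Pool.Agent.Helper57.NX

/-- NX2-A18: the generalised von Neumann theorem, natural top exponent, smooth functions -/
theorem gnc_nat (m : ℕ) (c : Fin (m + 1) → ℝ) (hc : Ex c) (d : ℕ) (hd : c (Fin.last m) = d)
    (εb : ℝ) (hεb : 0 < εb) :
    ∃ g0 : ℝ, 0 < g0 ∧ g0 ≤ 1 / 16 ∧ ∀ s : ℝ, 1 - 2 * g0 ≤ s → s ≤ d - εb →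
      ∀ s' : ℝ, s' ≤ s + g0 → GNCP m c s s' := by
  have hmin : 0 < min (εb / 8) (1 / 16) := lt_min (by linarith) (by norm_num)
  have hmin2 : min (εb / 8) (1 / 16) ≤ 1 / 16 := min_le_right _ _
  refine ⟨min (εb / 8) (1 / 16), hmin, hmin2, ?_⟩
  intro s hs0 hs s' hs'
  have h2 := hc.two (Fin.last m)
  have hd2 : 2 ≤ d := by
    rw [hd] at h2
    exact_mod_cast h2
  have hcast : ((d - 1 : ℕ) : ℝ) = d - 1 := by
    rw [Nat.cast_sub (by omega), Nat.cast_one]
  refine Pool.Agent.Helper82.NX2.gnc_core (fun c γ hγ R s => round c γ hγ R s) sweep m c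
    (fun i j hij => by have := hc.gap i j hij; linarith) (fun i => by have := hc.two i; linarith)
    (d - 1) (by omega) ?_ εb hεb s (by linarith) (by rw [hd]; exact hs) ?_ s' hs'
  · intro i hi h
    rw [hd] at h
    have h3 : (d : ℝ) = i := by linarith
    have h4 : d = i := by exact_mod_cast h3
    omega
  · rw [hd, hcast]
    linarith

end Pool.Agent.Helper67.NX2
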