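import Pool.Agent.Helper82.NX.GncC
import Pool.Agent.Helper45.NX.Round
import Pool.Agent.Helper51.NX.Sweep
import Pool.Agent.Helper67.NX2.Defs

/-!
# Project NX2: the generalised von Neumann theorem with a prescribed number of rounds
-/

set_option autoImplicit false

open Finset
open scoped BigOperators ComplexConjugate

namespace Pool.Agent.Helper82.NX2

open Pool.Agent.Helper57.NX
open Pool.Agent.Helper82.NX

noncomputable section

theorem gnc_core (hRd : RoundS) (hSw : SweepS) (m : ℕ) (c : Fin (m + 1) → ℝ) (hc : StrictMono c)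
    (hc0 : ∀ i, 0 < c i) (r0 : ℕ) (hr0 : 0 < r0) (hγ : ∀ i : ℕ, i ≤ r0 → c (Fin.last m) - i ≠ 0)
    (εb : ℝ) (hεb : 0 < εb) (s : ℝ) (hs0 : 0 ≤ s) (hs : s ≤ c (Fin.last m) - εb)
    (hsr : c (Fin.last m) - (s + 3 * min (εb / 8) (1 / 16)) < r0) (s' : ℝ)
    (hs' : s' ≤ s + min (εb / 8) (1 / 16)) : GNCP m c s s' := by
  set cm := c (Fin.last m) with hcm
  set g0 : ℝ := min (εb / 8) (1 / 16) with hg0
  have hg0p : 0 < g0 := lt_min (by linarith) (by norm_num)
  have hg0a : g0 ≤ εb / 8 := min_le_left _ _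
  have hg0b : g0 ≤ 1 / 16 := min_le_right _ _
  have hcmp : 0 < cm := hc0 _
  obtain ⟨gap, hgap0, hgap⟩ := exists_gap c hc
  -- exponents
  set mu : ℝ := s + 3 * g0 with hmu
  have hr0p : (0 : ℝ) < r0 := by exact_mod_cast hr0
  set e : ℝ := (cm - mu) / r0 with he
  have her : e * r0 = cm - mu := div_mul_cancel₀ _ hr0p.ne'
  have he0 : 0 < e := div_pos (by rw [hmu]; linarith) hr0p
  have he1 : e < 1 := by
    rw [he, div_lt_one hr0p]
    exact hsr
  set κ : ℝ := g0 / 8 with hκ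
  set κ1 : ℝ := min e (min gap 1) / 4 with hκ1
  have hκ1p : 0 < κ1 := by
    rw [hκ1]
    have : 0 < min e (min gap 1) := lt_min he0 (lt_min hgap0 one_pos)
    linarith
  have hκ1e : κ1 ≤ e / 4 := by
    rw [hκ1]
    exact div_le_div_of_nonneg_right (min_le_left _ _) (by norm_num)
  have hκ1g : κ1 ≤ gap / 4 := by
    rw [hκ1]
    exact div_le_div_of_nonneg_right ((min_le_right _ _).trans (min_le_left _ _)) (by norm_num)
  have hκ11 : κ1 ≤ 1 / 4 := by
    rw [hκ1]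
    exact div_le_div_of_nonneg_right ((min_le_right _ _).trans (min_le_right _ _)) (by norm_num)
  obtain ⟨R, hR⟩ := exists_nat_ge ((cm + 2) / e)
  have hRe : cm + 2 ≤ R * e := by
    rwa [div_le_iff₀ he0] at hR
  -- the rounds and the sweep
  obtain ⟨ν, s₁, hrd⟩ := rounds hRd c cm R r0 (fun i hi => hγ i hi.le) (m + 1)
  obtain ⟨n₁, hn₁, hrd⟩ := hrd (m + 1) 2
  obtain ⟨n₃, hsw⟩ := hSw (cm - r0) (hγ r0 le_rfl) n₁
  obtain ⟨C0, hC0, hinit⟩ := init_clu c (2 + ν)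
  set Nm : ℕ := max n₁ n₃ with hNm
  set θ : ℝ := min (κ1 / 2) (min ((1 - e) / 2) (κ / 4)) with hθ
  have hθp : 0 < θ := by
    rw [hθ]
    refine lt_min (by linarith) (lt_min (by linarith) ?_)
    rw [hκ]
    linarith
  have hθ1 : θ ≤ κ1 / 2 := min_le_left _ _
  have hθ2 : θ ≤ (1 - e) / 2 := (min_le_right _ _).trans (min_le_left _ _)
  have hθ3 : θ ≤ κ / 4 := (min_le_right _ _).trans (min_le_right _ _)
  obtain ⟨D0, hD02, hD0⟩ := exists_D0 θ (2 ^ (r0 + 1) + 2 * ν + 4 * n₁ + C0 + 2) hθp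
  refine ⟨θ, hθp, s₁, n₃ * 2 ^ s₁, θ / (Nm + 1), by positivity, D0, ?_⟩
  intro S N _ hDD hG δ hδ hδ2 X hQX hXs f0 f hf0 hf hfX hform X1 hX1 hX1s
  set D := S.D with hDdef
  have hD2 : 2 ≤ D := hD02.trans hDD
  have hD1 : 1 ≤ D := by linarith
  have hDp : 0 < D := by linarith
  have hbig := hD0 D hDD
  have hA1 : (2 : ℝ) ^ (r0 + 1) ≤ D ^ θ := by
    have : (0 : ℝ) ≤ ν := Nat.cast_nonneg _
    have : (0 : ℝ) ≤ n₁ := Nat.cast_nonneg _
    linarith
  have hA2 : 2 * (ν : ℝ) ≤ D ^ θ := by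
    have : (0 : ℝ) ≤ 2 ^ (r0 + 1) := by positivity
    have : (0 : ℝ) ≤ n₁ := Nat.cast_nonneg _
    linarith
  have hA3 : 4 * (n₁ : ℝ) ≤ D ^ θ := by
    have : (0 : ℝ) ≤ 2 ^ (r0 + 1) := by positivity
    have : (0 : ℝ) ≤ ν := Nat.cast_nonneg _
    linarith
  have hA4 : C0 ≤ D ^ θ := by
    have : (0 : ℝ) ≤ 2 ^ (r0 + 1) := by positivity
    have : (0 : ℝ) ≤ ν := Nat.cast_nonneg _
    have : (0 : ℝ) ≤ n₁ := Nat.cast_nonneg _
    linarith
  have hA5 : (2 : ℝ) ≤ D ^ θ := by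
    have : (0 : ℝ) ≤ 2 ^ (r0 + 1) := by positivity
    have : (0 : ℝ) ≤ ν := Nat.cast_nonneg _
    have : (0 : ℝ) ≤ n₁ := Nat.cast_nonneg _
    linarith
  have pw : ∀ {a b : ℝ}, a ≤ b → D ^ a ≤ D ^ b := fun h =>
    Real.rpow_le_rpow_of_exponent_le hD1 h
  have pp : ∀ a : ℝ, 0 < D ^ a := fun a => Real.rpow_pos_of_pos hDp a
  have pa : ∀ a b : ℝ, D ^ a * D ^ b = D ^ (a + b) := fun a b => (Real.rpow_add hDp a b).symm
  -- δ
  have hδ0 : 0 < δ := lt_of_lt_of_le (pp _) hδ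
  have hδ1 : δ ≤ 1 := hδ2.trans (by norm_num)
  have hδn : ∀ n : ℕ, n ≤ Nm → D ^ (-θ) ≤ δ ^ n := by
    intro n hn
    refine le_trans ?_ (pow_le_pow_left₀ (pp _).le hδ n)
    rw [← Real.rpow_natCast, ← Real.rpow_mul hDp.le]
    refine pw ?_
    have h1 : (n : ℝ) ≤ Nm + 1 := by
      have : (n : ℝ) ≤ Nm := by exact_mod_cast hn
      linarith
    have h2 : θ / (Nm + 1) * n ≤ θ := by
      rw [div_mul_eq_mul_div, div_le_iff₀ (by positivity)]
      exact mul_le_mul_of_nonneg_left h1 hθp.le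
    linarith
  have hδi : ∀ n : ℕ, n ≤ Nm → δ⁻¹ ^ n ≤ D ^ θ := by
    intro n hn
    have h1 := hδn n hn
    rw [Real.rpow_neg hDp.le] at h1
    rw [inv_pow]
    exact inv_le_of_inv_le₀ (pp _) h1
  -- M and K
  set M : ℕ := ⌊D ^ (1 - e)⌋₊ with hM
  obtain ⟨hM1, hM2, hM3⟩ := floor_bounds (a := 1 - e) hD1 hA5 (by linarith)
  rw [← hM] at hM1 hM2 hM3
  set k : ℝ := 1 - 2 * g0 + κ with hk
  set K : ℕ := ⌊D ^ k⌋₊ with hK
  have hθ8 : θ ≤ 1 / 8 := by linarith
  obtain ⟨hK1, hK2, hK3⟩ := floor_bounds (a := k) hD1 hA5 (by rw [hk, hκ]; linarith)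
  rw [← hK] at hK1 hK2 hK3
  -- `Q` and `P`
  have hQ1 : D ^ (2 : ℝ) ≤ S.Q := hG.Q1
  have hQp : (0 : ℝ) < S.Q := lt_of_lt_of_le (pp _) hQ1
  have hQpos : 0 < S.Q := by exact_mod_cast hQp
  set Pm := S.P (Fin.last m) with hPm
  have hPm1 : S.Q * D ^ (cm - θ) ≤ Pm := hG.P1 _
  have hPm2 : Pm ≤ S.Q * D ^ (cm + θ) := hG.P2 _
  have hPmp : 0 < Pm := lt_of_lt_of_le (mul_pos hQp (pp _)) hPm1
  have hP0 : ∀ i, 0 ≤ S.P i := fun i => le_trans (mul_nonneg hQp.le (pp _).le) (hG.P1 i)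
  have hPi : ∀ i, S.P i ≤ S.Q * D ^ (cm + θ) := by
    intro i
    refine (hG.P2 i).trans (mul_le_mul_of_nonneg_left (pw ?_) hQp.le)
    have : c i ≤ cm := hc.monotone (Fin.le_last i)
    linarith
  -- `M / D`
  have hMpos : (0 : ℝ) < M := lt_of_lt_of_le (pp _) hM3
  have eD : ∀ a : ℝ, D ^ a / D = D ^ (a - 1) := fun a => (Real.rpow_sub_one hDp.ne' a).symm
  have hMD : (M : ℝ) / D ≤ D ^ (-e) := by
    have h1 := div_le_div_of_nonneg_right hM1 hDp.le
    rw [eD] at h1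
    refine h1.trans (le_of_eq ?_)
    congr 1
    ring
  have hMD' : D ^ (-e) / 2 ≤ (M : ℝ) / D := by
    have h1 := div_le_div_of_nonneg_right hM2 hDp.le
    rw [div_right_comm, eD] at h1
    refine le_trans (le_of_eq ?_) h1
    congr 2
    ring
  have hpow : ∀ j : ℕ, (D ^ (-e)) ^ j = D ^ (-(e * j)) := by
    intro j
    rw [← Real.rpow_natCast, ← Real.rpow_mul hDp.le]
    congr 1
    ring
  have hMDj : ∀ j : ℕ, ((M : ℝ) / D) ^ j ≤ D ^ (-(e * j)) := by
    intro j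
    rw [← hpow]
    exact pow_le_pow_left₀ (by positivity) hMD j
  have hMDr : D ^ (-(e * r0)) / 2 ^ r0 ≤ ((M : ℝ) / D) ^ r0 := by
    rw [← hpow, ← div_pow]
    exact pow_le_pow_left₀ (by positivity) hMD' r0
  -- `lam`
  set lam : ℝ := Pm * ((M : ℝ) / D) ^ r0 with hlam
  have hlamp : 0 < lam := by positivity
  have hl1 : S.Q * D ^ (mu - θ) / 2 ^ r0 ≤ lam := by
    have h1 : S.Q * D ^ (mu - θ) / 2 ^ r0 =
        (S.Q * D ^ (cm - θ)) * (D ^ (-(e * r0)) / 2 ^ r0) := by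
      have : mu - θ = (cm - θ) + -(e * r0) := by rw [her]; ring
      rw [this, ← pa]
      ring
    rw [h1, hlam]
    exact mul_le_mul hPm1 hMDr (by positivity) hPmp.le
  have hl2 : lam ≤ S.Q * D ^ (mu + θ) := by
    have h1 : S.Q * D ^ (mu + θ) = (S.Q * D ^ (cm + θ)) * D ^ (-(e * r0)) := by
      have : mu + θ = (cm + θ) + -(e * r0) := by rw [her]; ring
      rw [this, ← pa]
      ring
    rw [h1, hlam]
    exact mul_le_mul hPm2 (hMDj r0) (by positivity) (mul_nonneg hQp.le (pp _).le)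
  -- `w`
  set w : ℝ := D ^ (-κ1) with hw
  have hw0 : 0 < w := pp _
  have hT : D ^ (1 - θ) ≤ S.T := hG.T1
  have hδNm := hδn Nm le_rfl
  have hEnv : Env S N δ M R w Nm :=
    { ρ0 := hG.ρ0
      ρ1 := hG.ρ1
      D1 := hD1
      δ0 := hδ0
      δ1 := hδ2
      u1 := hG.u1
      u2 := hG.u2
      MT := by
        refine hM1.trans ?_
        calc D ^ (1 - e) ≤ D ^ (-θ + (1 - θ)) := pw (by linarith)
          _ = D ^ (-θ) * D ^ (1 - θ) := (pa _ _).symm
          _ ≤ δ ^ Nm * S.T := mul_le_mul hδNm hT (pp _).le (pow_pos hδ0 _).le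
      M1 := (hδi Nm le_rfl).trans (le_trans (pw (by linarith)) hM3)
      MD := hMD.trans (pw (by linarith))
      w1 := le_trans (pw (by linarith)) hδNm
      P0 := hP0
      PR := by
        intro i
        calc S.P i * ((M : ℝ) / D) ^ R ≤ (S.Q * D ^ (cm + θ)) * D ^ (-(e * R)) :=
              mul_le_mul (hPi i) (hMDj R) (by positivity) (mul_nonneg hQp.le (pp _).le)
          _ = S.Q * D ^ (cm + θ + -(e * R)) := by rw [mul_assoc, pa]
          _ ≤ S.Q * D ^ (-κ1) := by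
              refine mul_le_mul_of_nonneg_left (pw ?_) hQp.le
              have : e * R = R * e := mul_comm _ _
              linarith
          _ = w * S.Q := mul_comm _ _
      wQ := by
        calc (1 : ℝ) = D ^ (0 : ℝ) := (Real.rpow_zero D).symm
          _ ≤ D ^ (-κ1 + 2) := pw (by linarith)
          _ = D ^ (-κ1) * D ^ (2 : ℝ) := (pa _ _).symm
          _ ≤ w * S.Q := mul_le_mul_of_nonneg_left hQ1 hw0.le
      QN := hG.N2 }
  -- `ν M ≤ D / 2`, `n₁ M ≤ D / 4`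
  have hMθ : D ^ θ * M ≤ D := by
    calc D ^ θ * M ≤ D ^ θ * D ^ (1 - e) := mul_le_mul_of_nonneg_left hM1 (pp _).le
      _ = D ^ (θ + (1 - e)) := pa _ _
      _ ≤ D ^ (1 : ℝ) := pw (by linarith)
      _ = D := Real.rpow_one D
  have hνM : (ν : ℝ) * M ≤ D / 2 := by
    have := mul_le_mul_of_nonneg_right hA2 hMpos.le
    linarith
  have hn₁M : (n₁ : ℝ) * M ≤ D / 4 := by
    have := mul_le_mul_of_nonneg_right hA3 hMpos.le
    linarith
  -- the initial list
  have hclu := hinit S hD1 hG.ρ0 hG.ρ1 δ M (5 / 2 * D + ν * M) w hδ0 hδ1 (by linarith) hw0.le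
    hPmp.le (fun i => ⟨hP0 _, by
      calc C0 * S.P i.castSucc ≤ D ^ θ * (S.Q * D ^ (c i.castSucc + θ)) :=
            mul_le_mul hA4 (hG.P2 _) (hP0 _) (pp _).le
        _ = S.Q * D ^ (θ + (c i.castSucc + θ)) := by rw [← pa θ]; ring
        _ ≤ S.Q * D ^ ((cm - θ) + -κ1) := by
            refine mul_le_mul_of_nonneg_left (pw ?_) hQp.le
            have := hgap i
            linarith
        _ = (S.Q * D ^ (cm - θ)) * w := by rw [← pa]; ring
        _ ≤ Pm * w := mul_le_mul_of_nonneg_right hPm1 hw0.le⟩)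
  have hadm : ∀ {B' : ℝ} {g : ZMod N → ℂ}, Adm δ⁻¹ B' g → 0 < B' → ∀ n : ℕ, 1 ≤ n →
      Adm (δ⁻¹ ^ n) B' g := by
    intro B' g hg hB' n hn
    refine Adm.mono' hg hB' ?_
    have := inv_pow_mono hδ0 hδ1 hn
    rwa [pow_one] at this
  have hform' : δ ^ (m + 1) ≤ ‖lform S c 1 ((f (Fin.last m), Finsupp.single ([], Fin.last m) 1) ::
      (f0, 0) :: List.ofFn fun i : Fin m =>
        (f i.castSucc, (Finsupp.single (([] : List ℕ), i.castSucc) (1 : ℤ) : Phi (m + 1))))‖ := by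
    rw [← form_eq_lform]
    refine le_trans ?_ hform
    have := pow_anti hδ0 hδ1 (show 1 ≤ m + 1 by omega)
    rwa [pow_one] at this
  obtain ⟨g0', t', _, ht'2, ht'3, ht'4, ht'5⟩ := hrd S N δ (5 / 2 * D) Pm w M
    (Env.mono hEnv (le_max_left _ _)) hQpos hw0.le hPmp (by linarith) (f (Fin.last m))
    (Finsupp.single ([], Fin.last m) 1)
    ((f0, 0) :: List.ofFn fun i : Fin m =>
        (f i.castSucc, (Finsupp.single (([] : List ℕ), i.castSucc) (1 : ℤ) : Phi (m + 1))))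
    (by simp) (hadm (hf _) hQp _ (by omega))
    (by
      intro fp hfp
      rw [List.mem_cons, List.mem_ofFn] at hfp
      rcases hfp with rfl | ⟨i, rfl⟩
      · exact hadm hf0 hQp _ (by omega)
      · exact hadm (hf _) hQp _ (by omega))
    (by
      rw [List.map_cons, List.map_ofFn]
      exact hclu) hform'
  -- the scale `X'`
  set X' : ℝ := min X (S.Q * D ^ s) with hX'
  have hX'Q : (S.Q : ℝ) ≤ X' := by
    refine le_min hQX ?_
    have : (1 : ℝ) ≤ D ^ s := Real.one_le_rpow hD1 hs0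
    exact le_mul_of_one_le_right hQp.le this
  have hX'p : 0 < X' := lt_of_lt_of_le hQp hX'Q
  have hX's : S.Q * D ^ (s - θ) ≤ X' := by
    refine le_min (le_trans ?_ hXs) (mul_le_mul_of_nonneg_left (pw (by linarith)) hQp.le)
    refine mul_le_mul_of_nonneg_left (pw ?_) hQp.le
    have : θ / ((Nm : ℝ) + 1) ≤ θ := div_le_self hθp.le (by
      have : (0 : ℝ) ≤ Nm := Nat.cast_nonneg _
      linarith)
    linarith
  have hX's2 : X' ≤ S.Q * D ^ s := min_le_right _ _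
  have hfX' : Adm (δ⁻¹ ^ n₁) X' (f (Fin.last m)) := by
    refine hadm ⟨hfX.bdd, ?_⟩ hX'p _ (by omega)
    exact TV.mono hfX.tv le_rfl hX'p (min_le_left _ _)
  have hδ3 := hδn n₃ (le_max_right _ _)
  have hδ3p : 0 < δ ^ n₃ := pow_pos hδ0 _
  -- lower bound for `lam K / D`
  have hKD1 : (K : ℝ) / D ≤ D ^ (k - 1) := by
    have h1 := div_le_div_of_nonneg_right hK1 hDp.le
    rwa [eD] at h1
  have hKD2 : D ^ (k - 1) / 2 ≤ (K : ℝ) / D := by
    have h1 := div_le_div_of_nonneg_right hK2 hDp.le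
    rwa [div_right_comm, eD] at h1
  have hlow : S.Q * D ^ (s + g0) ≤ δ ^ n₃ * (lam * ((K : ℝ) / D)) := by
    calc S.Q * D ^ (s + g0) ≤ S.Q * D ^ (-θ + (mu - θ) + (k - 1) + -θ) := by
          refine mul_le_mul_of_nonneg_left (pw ?_) hQp.le
          rw [hmu, hk]
          linarith
      _ = D ^ (-θ) * ((S.Q * D ^ (mu - θ)) * D ^ (k - 1)) * D ^ (-θ) := by
          rw [← pa, ← pa, ← pa]; ring
      _ ≤ D ^ (-θ) * ((S.Q * D ^ (mu - θ)) * D ^ (k - 1)) * (1 / 2 ^ (r0 + 1)) := by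
          refine mul_le_mul_of_nonneg_left ?_ (by positivity)
          rw [Real.rpow_neg hDp.le, one_div]
          exact inv_anti₀ (by positivity) hA1
      _ = D ^ (-θ) * ((S.Q * D ^ (mu - θ) / 2 ^ r0) * (D ^ (k - 1) / 2)) := by
          rw [pow_succ]
          field_simp
      _ ≤ δ ^ n₃ * (lam * ((K : ℝ) / D)) := by
          refine mul_le_mul hδ3 (mul_le_mul hl1 hKD2 (by positivity) hlamp.le) (by positivity)
            hδ3p.le
  have hbox := hsw (m + 1) S c N δ (5 / 2 * D) lam w X' M R K (Env.mono hEnv (le_max_right _ _))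
    hlamp le_rfl (by linarith) (f (Fin.last m)) g0' t' hfX' (ht'2 (by omega)) ht'4 hn₁M ht'5
    (by
      refine (hδi n₃ (le_max_right _ _)).trans (le_trans (pw ?_) hK3)
      rw [hk]
      linarith)
    (by
      refine hK1.trans ?_
      calc D ^ k ≤ D ^ (-θ + (1 - θ)) := pw (by rw [hk]; linarith)
        _ = D ^ (-θ) * D ^ (1 - θ) := (pa _ _).symm
        _ ≤ δ ^ n₃ * S.T := mul_le_mul hδ3 hT (pp _).le hδ3p.le)
    (by
      calc lam * ((K : ℝ) / D) ^ 2 ≤ (S.Q * D ^ (mu + θ)) * (D ^ (k - 1)) ^ 2 := by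
            refine mul_le_mul hl2 (pow_le_pow_left₀ (by positivity) hKD1 2) (by positivity)
              (mul_nonneg hQp.le (pp _).le)
        _ = S.Q * D ^ ((mu + θ) + ((k - 1) + (k - 1))) := by
            rw [← pa (mu + θ), ← pa (k - 1)]; ring
        _ ≤ S.Q * D ^ (-θ + (s - θ)) := by
            refine mul_le_mul_of_nonneg_left (pw ?_) hQp.le
            rw [hmu, hk]
            linarith
        _ = D ^ (-θ) * (S.Q * D ^ (s - θ)) := by rw [← pa]; ring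
        _ ≤ δ ^ n₃ * X' := mul_le_mul hδ3 hX's (by positivity) hδ3p.le)
    (by
      calc lam / D ≤ (S.Q * D ^ (mu + θ)) / D := div_le_div_of_nonneg_right hl2 hDp.le
        _ = S.Q * D ^ (mu + θ - 1) := by rw [mul_div_assoc, eD]
        _ ≤ S.Q * D ^ (-θ + (s - θ)) := by
            refine mul_le_mul_of_nonneg_left (pw ?_) hQp.le
            rw [hmu]
            linarith
        _ = D ^ (-θ) * (S.Q * D ^ (s - θ)) := by rw [← pa]; ring
        _ ≤ δ ^ n₃ * X' := mul_le_mul hδ3 hX's (by positivity) hδ3p.le)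
    (by
      calc (1 : ℝ) = D ^ (0 : ℝ) := (Real.rpow_zero D).symm
        _ ≤ D ^ (-θ + 2) := pw (by linarith)
        _ = D ^ (-θ) * D ^ (2 : ℝ) := (pa _ _).symm
        _ ≤ δ ^ n₃ * X' := mul_le_mul hδ3 (hQ1.trans hX'Q) (pp _).le hδ3p.le)
    (by
      refine hX's2.trans ?_
      have h1 : S.Q * D ^ (cm - θ) ≤ N * D ^ θ := hPm1.trans (hG.N1 _)
      have h2 : S.Q * D ^ (cm - θ - θ) ≤ N := by
        have h3 := mul_le_mul_of_nonneg_right h1 (pp (-θ)).le
        rw [mul_assoc, pa, mul_assoc, pa] at h3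
        have h4 : θ + -θ = 0 := by ring
        rw [h4, Real.rpow_zero, mul_one] at h3
        refine le_trans (le_of_eq ?_) h3
        congr 2
      refine le_trans (mul_le_mul_of_nonneg_left (pw ?_) hQp.le) h2
      linarith)
    (by
      refine hX's2.trans (le_trans (mul_le_mul_of_nonneg_left (pw ?_) hQp.le) hlow)
      linarith)
    X1 hX1
    (by
      refine hX1s.trans (le_trans (mul_le_mul_of_nonneg_left (pw ?_) hQp.le) hlow)
      linarith)
  exact Box_raise _ _ _ ht'3 hX1 hfX.bdd hδ0 hδ1 _ hbox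

end

end Pool.Agent.Helper82.NX2
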